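import Pool.Agent.X305.LT.VMain

/-!
# The `p`-adic weight-monodromy conjecture and the central twist of the middle cohomology

Let `K` be a `p`-adic field with residue field of `q` elements, and `g` a lift of Frobenius in its Weil group.
For a smooth projective variety `Y` over `K` let `H^m(Y)` be the Hyodo-Kato cohomology (coefficients in
`Ω`, an algebraic closure of `ℚ_p`), with `F` given by `g` (the linear Frobenius `φ ^ f` if `Y` has
semistable reduction) and the monodromy operator `N`, `N F = q F N`. `ProdClass` is such a theory on a class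
of varieties closed under products which contains an elliptic curve with split multiplicative reduction
(for example the class of all smooth projective varieties over `K`), with the following properties, which are
theorems: Frobenius eigenvalues are Weil numbers, duality, hard and weak Lefschetz, rationality of the
alternating product of the characteristic polynomials, Künneth formula, the cohomology of the Tate
curve. (`ℓ`-adic cohomology is another example.)

For `V = H^m(Y_K̄, ℚ_p)(r)`, `Y` with semistable reduction, the space of the `z` in `H^m(Y)` with `F z = q ^ r z`,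
`N z = 0` is `D_cris(V)^(φ = 1)` (with coefficients in `Ω`), and it vanishes if and only if `H¹_e(K, V) = H¹_f(K, V)`
(Bloch and Kato). The space of the linear forms `φ` on `H^m(Y)` with `φ ∘ F = q ^ (r - 1) φ`, `φ ∘ N = 0` is
`D_cris(V*(1))^(φ = 1)`, and it vanishes if and only if `H¹_f(K, V) = H¹_g(K, V)`.

**Theorem.** The following are equivalent:
(1) the weight-monodromy conjecture for all `Y` and all degrees;
(2) no nonzero `z` in `H^m(Y)` satisfies `F z = q ^ r z`, `N z = 0`, for all `Y` and `m < 2 r`;
(3) the same for `m = dim Y = 2 r - 1` (the central twist `V = H^(2 r - 1)(r)`, `V ≅ V*(1)`, the target of the Abel-Jacobi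
map): `H¹_e = H¹_f`;
(4) the dual statement: `H¹_f = H¹_g` for these `V`;
(5) the statement (3) for the varieties `Y = X × X × E ^ (2 i + 1)` only, `E` the Tate curve.

The proof of (5) ⇒ (1): by the theorem `weightMonodromy_of_tate` it suffices to show that for `i > 0` no nonzero
Frobenius eigenvector `z` in `H^n(X) ⊗ H^n(X) ⊂ H^(2 n)(X × X)`, `n = dim X`, with the eigenvalue `q ^ (n + i)` is killed by
`N ^ (2 i)`. Let `e₁, e₂` be the basis of `H¹(E)` with `F e₁ = e₁`, `F e₂ = q e₂`, `N e₂ = e₁`. If `z` in `H^m(Y)` is an
eigenvector for `q ^ r` killed by `N ^ (k + 1)`, then `N z ⊗ e₂ - k z ⊗ e₁` in `H^(m + 1)(Y × E)` is an eigenvector for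
`q ^ r` killed by `N ^ k`; it is not zero. After `2 i - 1` steps one gets an invariant in the middle
cohomology of `X × X × E ^ (2 i - 1)`.
-/

set_option autoImplicit false

universe u

namespace Pool.Agent.Results.MP_d037d4_ag.CentralTwist

open Pool.Agent.X268.WM Pool.Agent.X305.LT

/-- **The weight-monodromy conjecture is equivalent to the vanishing of the invariants in the central twist of the
middle cohomology.** -/
theorem result {Ω : Type} [Field Ω] [CharZero Ω] {q : ℕ} (hq : 1 < q) (𝒞 : ProdClass.{u} Ω q) :
    List.TFAE [
      -- (1) the weight-monodromy conjecture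
      ∀ (n : ℕ) (X : 𝒞.Var n) (m : ℕ), m ≤ 2 * n → (𝒞.H X m).IsPure m,
      -- (2) no invariants for `m < 2 r`
      ∀ (n : ℕ) (X : 𝒞.Var n) (m : ℕ) (r : ℤ), m ≤ 2 * n → (m : ℤ) < 2 * r →
        NoInvariants (𝒞.H X m) r,
      -- (3) no invariants for `m = dim X = 2 r - 1`
      ∀ (n : ℕ) (X : 𝒞.Var n) (r : ℤ), 2 * r = n + 1 → NoInvariants (𝒞.H X n) r,
      -- (4) the dual statement
      ∀ (n : ℕ) (X : 𝒞.Var n) (r : ℤ), 2 * r = n + 1 → NoForms (𝒞.H X n) (r - 1),
      -- (5) the statement (3) for `X × X × E ^ (2 i + 1)`
      ∀ (n : ℕ) (X : 𝒞.Var n) (i : ℕ), NoInvariants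
        (𝒞.H (𝒞.withCurves (𝒞.prod X X) (2 * i + 1)) (n + n + (2 * i + 1))) (n + i + 1)] :=
  tfae_central hq 𝒞

end Pool.Agent.Results.MP_d037d4_ag.CentralTwist
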