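import Pool.Agent.X312.FC.Laws

/-!
# A gap law for the monodromy operator on the Hyodo-Kato cohomology of `Y × X ^ n`

Let `K` be a finite extension of `ℚ_p` with an embedding in `ℂ`, and let `X` and `Y` be **any**
smooth projective varieties over `K`. Fix `e ∈ {0, 1}` and `r ≥ 1`. For a smooth projective
variety `Z` let `S_r(Z)` be the part of weight `e + r` of the space `⊕_j H^(2 j + e)(Y × Z)(j)`,
Hyodo-Kato cohomology with coefficients in the maximal unramified extension of `K_0`. The operator
`N ^ r` maps `S_r(Z)` to the part of weight `e - r`, and the weight-monodromy conjecture for `Y ×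
Z` says that these maps are injective (and then bijective, by duality) for all `e` and all `r ≥
1`. Let `Mot(Z)` be the space generated by the motivated cycles on `Z`, and `b` the sum of the
Betti numbers of `X`. For all `m ≥ 1`: `N ^ r` **is injective on** `S_r(X ^ m)`, **or for all** `n
≥ 1`

`dim ker (N ^ r | S_r(X ^ n)) ≥ (1 - 4 (m + 3) b ^ (m + 5) log (n + 1) / n) dim Mot(X ^ n)`.

Nothing is assumed on `X` and `Y`. So if the `p`-adic weight-monodromy conjecture is false for the
cohomology of one `Y × X ^ m` then it is false for all `Y × X ^ n` with large `n`, and the kernels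
of the operators `N ^ r` in weight `e + r` are almost as large as the space of the motivated
cycles on `X ^ n`. The same proof gives the same law for the `ℓ`-adic cohomology.

The motivated correspondences between smooth projective varieties are compatible with `N` and with
the Frobenius, and the pairing on motivated cycles is nondegenerate by the Hodge index theorem
(André).

The proof. Let `N(Z)` be the kernel in question and `P = X ^ m` with `N(P) ≠ 0`. One takes an
idempotent correspondence `g` in `Mot(P × P)` of minimal rank with `g N(P) ≠ 0` and an element `z
≠ 0` of `g N(P)`. A correspondence `x` with `x z = 0` has a nilpotent compression `g x g`, so the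
trace of `g x` vanishes; therefore `dim N(Z)` is at least the rank of the trace form `(u, v) ↦ tr
(g v u)` on the correspondences between `P` and `Z`, and for `Z = X ^ n` this rank is compared
with `dim Mot(X ^ n)` by the log-convexity of the sequence of these dimensions and by the
symmetric group.
-/

set_option autoImplicit false

open CategoryTheory AlgebraicGeometry

universe u v w

namespace Pool.Agent.Results.MP_d037d4_ag.KernelGapLaw

open Pool.Agent.H914 VarClass Obj WeilCohomology
open Pool.Agent.X312.FC (CorrData IsNatural)
open Pool.Agent.X312.FM (Family IsRingFamily IsNondeg dimOn gapBound)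
open Pool.Agent.X312.FK (IndepMod)
open Pool.Agent.Y133.Half (pw)

variable {k : Type u} [Field k] {𝒱 : VarClass k} {ops : CycleOps 𝒱}
  {W : WeilCohomology.{u, v} ops}

/-- The sum of the Betti numbers of `X`. -/
noncomputable def totalBetti (W : WeilCohomology.{u, v} ops) (X : 𝒱.Obj) : ℕ :=
  Module.finrank W.K (W.H X)

/-- **The gap law for kernels of natural transformations.** In the intended use `C` is the family of the
spaces generated by the motivated cycles, `S.M Z` and `T.M Z` are the parts of weight `e + r` and `e - r`
of `⊕_j H^(2 j + e)(Y × Z)(j)`, and `f Z` is the `r`-th power of the monodromy operator. Here `dimOn C Z`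
is the dimension of `C Z`, and `pw X m` is the product of `m + 1` copies of `X`. -/
theorem result (C : Family W) (hC : IsRingFamily C) (S T : CorrData W) (hS : S.IsFunctor C)
    (hT : T.IsFunctor C) (f : ∀ Z : 𝒱.Obj, S.M Z → T.M Z) (hf : IsNatural C S T f)
    (X : 𝒱.Obj) (hX : ∀ n, IsNondeg C (pw X n)) (m : ℕ) :
    (∀ x : S.M (pw X m), f _ x = 0 → x = 0) ∨
    ∀ n : ℕ, IndepMod {x : S.M (pw X n) | f _ x = 0} (⊥ : Submodule W.K (S.M (pw X n)))
      (gapBound (totalBetti W X) (dimOn C (pw X n)) m n) :=
  Pool.Agent.X312.FC.ker_law hC hS hT hf X hX m

end Pool.Agent.Results.MP_d037d4_ag.KernelGapLaw
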