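import Pool.Agent.X305.WM.GenTrans

/-!
# The `p`-adic weight-monodromy conjecture, the one for one `l`, and twisted endomorphisms

Let `Y` be a smooth projective variety over a `p`-adic field `K` with residue field of `q` elements, and `m`
an integer. Take for `W p` the Hyodo-Kato cohomology `H^m_HK (Y)` (coefficients extended to an algebraic closure
`Ω p`), with `F = φ ^ f` and the monodromy operator, and for `l ≠ p` the `l`-adic cohomology of degree `m` (after
a finite extension of `K`, so that the inertia group acts unipotently). Suppose that the characteristic
polynomial of `F` on `W l` is one polynomial `P` with rational coefficients for all `l` (also for `l = p`); this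
is known, for example, for `m = 3` and threefolds with `h ^ (2, 0) = 0` (weight spectral sequence, Katz-Messing).

**Theorem.**
(1) For all `l` (also `l = p`) the weight-monodromy property of `W l` for the weight `m` is equivalent to the
two conditions: (a) `AdmissibleRoots q m P`: for a Weil number `a` of weight `m + k` the multiplicity of `a`
as a root of `P` is at most those of `a / q`, ..., `a / q ^ k`, and it is equal to the last one; (b) there is no
nonzero homomorphism `W l → W l (1)`.
(2) If the weight-monodromy property holds for one `l`, then for each other `l` (also for `l = p`) it is
equivalent to (b).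

So if the weight-monodromy conjecture is known for `H^m (Y, ℚ_l)` for one `l ≠ p`, then the `p`-adic
weight-monodromy conjecture for `H^m_HK (Y)` is equivalent to the vanishing of
`Hom_(φ, N) (H^m_HK (Y), H^m_HK (Y) (1))` (coefficients extended), a part of
`H^(2 d)_HK (Y × Y) ^ (N = 0, φ ^ f = q ^ (d + 1))`.

The proof: `W l` is a direct sum of chains `v, N v, ..., N ^ (s - 1) v` of generalized eigenvectors of `F`. Two
chains are linked if the second one, shifted by `-1`, overlaps with the first one and ends in it; linked
chains give a nonzero operator which commutes with `N` and raises the degree, and, after passing to an eigenvector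
for the conjugation by `F`, a nonzero homomorphism `W l → W l (1)`. If there are no linked chains and the
multiplicities are admissible, the chains which cover `a` of weight `m + k` also cover `a / q ^ k`, and all
chains are centered at the weight `m`.
-/

set_option autoImplicit false

universe u

namespace Pool.Agent.Results.MP_d037d4_ag.NoTwistedEndomorphisms

open Module Polynomial Pool.Agent.X268.WM Pool.Agent.X305.WM

/-- **Weight-monodromy for one prime number and twisted endomorphisms for another one.** -/
theorem result {q : ℕ} (hq : 1 < q) (m : ℕ) {Λ : Type} (Ω : Λ → Type) [∀ l, Field (Ω l)]
    [∀ l, CharZero (Ω l)] [∀ l, IsAlgClosed (Ω l)] (W : ∀ l, FN.{u} (Ω l) q)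
    -- the eigenvalues of Frobenius are Weil numbers of some weights
    (hmix : ∀ l, (W l).IsMixed) (P : ℚ[X])
    -- the characteristic polynomial of Frobenius is rational and independent of `l`
    (hP : ∀ l, (W l).F.charpoly = P.map (algebraMap ℚ (Ω l))) :
    (∀ l, (W l).IsPure m ↔ AdmissibleRoots q m P ∧ NoTwistedEndomorphism (W l)) ∧
      ((∃ l, (W l).IsPure m) → ∀ l, (W l).IsPure m ↔ NoTwistedEndomorphism (W l)) :=
  family hq m Ω W hmix P hP

end Pool.Agent.Results.MP_d037d4_ag.NoTwistedEndomorphisms
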