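import Pool.Agent.X302.MW.Third

/-!
# MP_d037d4_ag: the three extreme weights of `H^k_HK`, and `H^3_HK`, in all dimensions
-/

set_option autoImplicit false

open Module

universe u v

namespace Pool.Agent.Results.MP_d037d4_ag.ThreeExtremeWeights

open Pool.Agent.Y143 Pool.Agent.X302.MW

/-- The conclusion in degree `k`: the maps `N ^ e : gr_(m + e) H^m → gr_(m - e) H^m` (graded pieces of
the weight filtration) are bijective for all `e ≥ k - 2`, `e ≥ 1`, for `m = k` and `m = 2 n - k`; and if
`k = 3`, then the weight-monodromy conjecture holds for `H^3` and `H^(2 n - 3)`. -/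
def Conclusion {Ω : Type u} [Field Ω] [CharZero Ω] {Γ : Type} {n q : ℕ}
    (X : SemistableModel.{u, v} Ω Γ n q) (k : ℕ) : Prop :=
  PowerIsoFrom X k (k - 2) ∧ PowerIsoFrom X (2 * n - k) (k - 2) ∧
    (k = 3 → IsMWPure q k (X.actV k X.frob) (X.N k) ∧
      IsMWPure q (2 * n - k : ℕ) (X.actV (2 * n - k) X.frob) (X.N (2 * n - k)))

/-- **The extreme weights of Hyodo-Kato cohomology in any dimension.** Let `Y` be a smooth projective
variety of dimension `n` over a finite extension of `ℚ_p` with a projective strictly semistable
model, with residue field with `q` elements, `3 ≤ k ≤ n` and `h = dim H^k(Y, O)`. Suppose that the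
multiplicities of the Frobenius eigenvalues of weight two on `H^k_HK` are rational, that the graded
pieces of weight zero and one satisfy `dim gr_0 + (dim gr_1) / 2 ≥ h` (no condition if
`H^k(Y, O) = 0`), and that the Tate conjecture for divisors holds for the intersections of `k - 2`
components of the special fibre. Then `N ^ e : gr_(k + e) H^k → gr_(k - e) H^k` is bijective for
`e = k, k - 1, k - 2`, and the same for `H^(2 n - k)`. For `k = 3`, this is the full `p`-adic
weight-monodromy conjecture for `H^3_HK` and `H^(2 n - 3)_HK`.

`X` is the `p`-adic theory: crystalline cohomology of the strata of the special fibre, Hyodo-Kato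
cohomology with `N` and the linear Frobenius, and the weight spectral sequence of Mokrane, with
coefficients extended to an algebraically closed field `Ω` with valuation ring `R`; `A` are the classes
of divisors on the strata. The hypotheses are the following.

* `hI` (known): the Frobenius eigenvalues on the strata are algebraic integers.
* `hM`: conjugate algebraic numbers of weight two have the same multiplicity as Frobenius eigenvalues
  on `H^k_HK`.
* `hN`: on a subspace `U` of `H^k_HK` stable under the Frobenius, the sum of the slopes is at least
  `dim U - h`; this holds because the Newton polygon lies above the Hodge polygon.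
* `hW`: the condition on the graded pieces `gr_0` and `gr_1`, in the form
  `2 h ≤ dim W_0 + dim W_1`.
* `hT`: the Tate conjecture for divisors on the intersections `Y^(k-2)` of `k - 2` components. -/
theorem result {Ω : Type u} [Field Ω] [CharZero Ω] [IsAlgClosed Ω] {Γ : Type} {n q : ℕ}
    (hq : IsPrimePow q)
    (X : Degeneration.{u, v} Ω Γ n q) (A : DivisorClasses X.toSpecialFibre)
    (hI : HasIntegralFrobenius X.toSpecialFibre)
    (R : ValuationSubring Ω) (hR : ((q : Ω))⁻¹ ∉ R) (k : ℕ) (hk : 3 ≤ k) (hkn : k ≤ n)
    (hM : RationalMult X.toSemistableModel k)
    (h : ℕ) (hN : NewtonBound X.toSemistableModel k h R)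
    (hW : IsCompletelyDegenerate X.toSemistableModel k h)
    (hT : A.TateConj (k - 3)) : Conclusion X.toSemistableModel k :=
  three_extreme_of_degenerate hq X A X.toSemistableModel A hI R hR k hk hkn
    (fun α α' hc hw _ => (hM α α' hc hw).le) hN hW hT

end Pool.Agent.Results.MP_d037d4_ag.ThreeExtremeWeights
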